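import Pool.Agent.Run7.h926.Main

set_option autoImplicit false

/-!
# Accessibility at every scale

Every connected locally finite quasi-transitive graph has one canonical nested family of minimum
edge cuts between its ends whose pieces at every scale have bounded size.
-/

namespace Pool.Agent.Results.MP_851278_al.EveryScale

open Opposite

/-- The edges from `A` to its complement, as ordered pairs. -/
def Cut {V : Type} (G : SimpleGraph V) (A : Set V) : Set (V × V) :=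
  {d | G.Adj d.1 d.2 ∧ d.1 ∈ A ∧ d.2 ∉ A}

/-- The vertices incident with an edge between `A` and its complement. -/
def CutVerts {V : Type} (G : SimpleGraph V) (A : Set V) : Set V :=
  {v | ∃ w, G.Adj v w ∧ (v ∈ A ↔ w ∉ A)}

/-- The end `ω` lives in `A`: for some finite set `K` of vertices the component of the graph
without `K` chosen by `ω` lies in `A`. -/
def LivesIn {V : Type} {G : SimpleGraph V} (ω : G.end) (A : Set V) : Prop :=
  ∃ K : Finset V,
    SimpleGraph.ComponentCompl.supp (G := G) (K := (K : Set V)) (ω.val (op K)) ⊆ A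

/-- `T` is connected at scale `m`: any two of its vertices are joined by a sequence of vertices
of `T` with steps of length at most `m`. -/
def ScaleConn {V : Type} (G : SimpleGraph V) (m : ℕ) (T : Set V) : Prop :=
  ∀ a ∈ T, ∀ b ∈ T, Relation.ReflTransGen (fun x y => x ∈ T ∧ y ∈ T ∧ G.dist x y ≤ m) a b

/-- Accessibility at every scale, and the resulting criterion for accessibility. -/
theorem result :
    ∀ (V : Type) (G : SimpleGraph V), G.Connected → (∀ v, (G.neighborSet v).Finite) →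
      (∃ S : Finset V, ∀ v : V, ∃ s ∈ S, ∃ φ : G ≃g G, φ s = v) →
      ∃ (E : Set (Set V)) (k : ℕ → ℕ),
        (∀ A ∈ E, Aᶜ ∈ E ∧ (Cut G A).Finite ∧ (G.induce A).Connected ∧
          (G.induce Aᶜ).Connected ∧ ∀ φ : G ≃g G, φ '' A ∈ E) ∧
        (∀ A ∈ E, ∀ B ∈ E, A ⊆ B ∨ A ⊆ Bᶜ ∨ Aᶜ ⊆ B ∨ Aᶜ ⊆ Bᶜ) ∧
        (∀ (d : V × V) (n : ℕ), {A | A ∈ E ∧ d ∈ Cut G A ∧ (Cut G A).ncard ≤ n}.Finite) ∧
        (∀ A ∈ E, ∀ (m : ℕ) (T : Finset V), (T : Set V) ⊆ CutVerts G A →
          ScaleConn G m (T : Set V) → T.card ≤ k m) ∧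
        (∀ ω₁ ω₂ : G.end, ω₁ ≠ ω₂ → ∃ A ∈ E, LivesIn ω₁ A ∧ LivesIn ω₂ Aᶜ ∧
          ∀ B, (Cut G B).Finite → LivesIn ω₁ B → LivesIn ω₂ Bᶜ →
            (Cut G A).ncard ≤ (Cut G B).ncard) ∧
        ((∃ c : ℕ, ∀ ω₁ ω₂ : G.end, ω₁ ≠ ω₂ →
            ∃ K : Finset V, K.card ≤ c ∧ ω₁.val (op K) ≠ ω₂.val (op K)) ↔
          ∃ m r : ℕ, ∀ ω₁ ω₂ : G.end, ω₁ ≠ ω₂ → ∃ A ∈ E, LivesIn ω₁ A ∧ LivesIn ω₂ Aᶜ ∧
            ∃ F : Finset (Finset V), F.card ≤ r ∧ (∀ T ∈ F, ScaleConn G m (T : Set V)) ∧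
              ∀ v, v ∈ CutVerts G A ↔ ∃ T ∈ F, v ∈ T) := by
  intro V G hG hf hS
  choose k hk using Run7.h926.famAll_bounded hG hf hS
  refine ⟨Run7.h926.FamAll G, k, ?_, ?_, ?_, ?_, ?_, ?_⟩
  · intro A hA
    obtain ⟨h1, h2, h3, h4⟩ := Run7.h926.famAll_good hG hA
    exact ⟨h1, h2, h3, h4, fun φ => Run7.h926.famAll_image hA φ⟩
  · exact fun A hA B hB => Run7.h926.famAll_nested hG hA hB
  · exact fun d n => Run7.h926.famAll_locally_finite hG d n
  · exact fun A hA m T hT hc => hk m A hA T hT hc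
  · exact fun ω₁ ω₂ h => Run7.h926.famAll_sep hG hf h
  · exact Run7.h926.criterion hG hf hS

end Pool.Agent.Results.MP_851278_al.EveryScale
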