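import Pool.Agent.Run7.h926.Recur

set_option autoImplicit false

/-!
# Minors that are not recurrent can be removed by a quasi-isometry
-/

namespace Pool.Agent.Results.MP_851278_al.Recurrence

/-- `H` is a minor of the subgraph of `G` induced by the vertex set `X`. -/
def MinorIn {V W : Type} (G : SimpleGraph V) (X : Set V) (H : SimpleGraph W) : Prop :=
  ∃ f : W → Set V, (∀ w, f w ⊆ X) ∧ (∀ w, (G.induce (f w)).Connected) ∧
    Pairwise (fun a b => Disjoint (f a) (f b)) ∧
    ∀ a b, H.Adj a b → ∃ x ∈ f a, ∃ y ∈ f b, G.Adj x y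

/-- The map `q` is a quasi-isometry with constant `C` between the path metrics. -/
def QuasiIsom {V V' : Type} (G : SimpleGraph V) (G' : SimpleGraph V') (q : V → V') (C : ℕ) :
    Prop :=
  (∀ x y, G'.dist (q x) (q y) ≤ C * G.dist x y + C ∧
          G.dist x y ≤ C * G'.dist (q x) (q y) + C) ∧
    ∀ z, ∃ x, G'.dist z (q x) ≤ C

/-- Let `G` be an infinite connected locally finite quasi-transitive graph quasi-isometric to the
connected graph `G'`, and let finitely many families of finite graphs be given. If for every `R`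
some ball of radius `R` of `G'` does not contain pairwise disjoint minors, one from each family,
then `G` is quasi-isometric to a connected graph of bounded degree that has no minor at all from
one of the families. -/
theorem result :
    ∀ (V : Type) (G : SimpleGraph V), Infinite V → G.Connected →
      (∀ v, (G.neighborSet v).Finite) →
      (∃ S : Finset V, ∀ v : V, ∃ s ∈ S, ∃ φ : G ≃g G, φ s = v) →
      ∀ (V' : Type) (G' : SimpleGraph V'), G'.Connected →
      ∀ (q : V → V') (C : ℕ), QuasiIsom G G' q C →
      ∀ (J : Type) (ι : J → Type) (W : ∀ j, ι j → Type) (H : ∀ j i, SimpleGraph (W j i)),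
        Finite J → (∀ j i, Finite (W j i)) →
        (∀ R : ℕ, ∃ y : V', ¬ ∃ X : J → Set V', (∀ j, ∀ z ∈ X j, G'.dist y z ≤ R) ∧
          Pairwise (fun a b => Disjoint (X a) (X b)) ∧ ∀ j, ∃ i, MinorIn G' (X j) (H j i)) →
        ∃ j : J, ∃ (V'' : Type) (G'' : SimpleGraph V''), G''.Connected ∧
          (∃ D : ℕ, ∀ v, (G''.neighborSet v).Finite ∧ (G''.neighborSet v).ncard ≤ D) ∧
          (∃ (q'' : V → V'') (C'' : ℕ), QuasiIsom G G'' q'' C'') ∧
          ∀ i, ¬ MinorIn G'' Set.univ (H j i) := by
  intro V G _ hG hf hS V' G' hG' q C hq J ι W H _ _ hno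
  exact Run7.h926.recurrence hG hf hS hG' hq H hno

end Pool.Agent.Results.MP_851278_al.Recurrence
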