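import Pool.Agent.Run7.h926.TorsoMinor

set_option autoImplicit false

/-!
# Reduction of inaccessible graphs to the torsos of tree-decompositions of bounded adhesion
-/

namespace Pool.Agent.Results.MP_851278_al.TorsoReduction

open Opposite

/-- There is a bound on the number of vertices needed to separate two distinct ends. -/
def Accessible {V : Type} (G : SimpleGraph V) : Prop :=
  ∃ k : ℕ, ∀ ω₁ ω₂ : G.end, ω₁ ≠ ω₂ →
    ∃ K : Finset V, K.card ≤ k ∧ ω₁.val (op K) ≠ ω₂.val (op K)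

/-- The map `q` is a quasi-isometry with constant `C` between the path metrics. -/
def QuasiIsom {V V' : Type} (G : SimpleGraph V) (G' : SimpleGraph V') (q : V → V') (C : ℕ) :
    Prop :=
  (∀ x y, G'.dist (q x) (q y) ≤ C * G.dist x y + C ∧
          G.dist x y ≤ C * G'.dist (q x) (q y) + C) ∧
    ∀ z, ∃ x, G'.dist z (q x) ≤ C

/-- `H` is a minor of the subgraph of `G` induced by the vertex set `X`. -/
def MinorIn {V W : Type} (G : SimpleGraph V) (X : Set V) (H : SimpleGraph W) : Prop :=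
  ∃ f : W → Set V, (∀ w, f w ⊆ X) ∧ (∀ w, (G.induce (f w)).Connected) ∧
    Pairwise (fun a b => Disjoint (f a) (f b)) ∧
    ∀ a b, H.Adj a b → ∃ x ∈ f a, ∃ y ∈ f b, G.Adj x y

/-- The bags `β t`, for the nodes `t` of the tree `T`, form a tree-decomposition of `G'`. -/
def TreeDecomp {V' τ : Type} (G' : SimpleGraph V') (T : SimpleGraph τ) (β : τ → Set V') : Prop :=
  T.IsTree ∧ (∀ v, ∃ t, v ∈ β t) ∧ (∀ u v, G'.Adj u v → ∃ t, u ∈ β t ∧ v ∈ β t) ∧
    ∀ v, (T.induce {t | v ∈ β t}).Preconnected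

/-- The torso at `s`: the subgraph induced by the bag of `s` together with all edges inside the
intersections with the bags of the neighbours of `s`. -/
def Torso {V' τ : Type} (G' : SimpleGraph V') (T : SimpleGraph τ) (β : τ → Set V') (s : τ) :
    SimpleGraph (β s) where
  Adj u v := u ≠ v ∧ (G'.Adj u v ∨ ∃ t, T.Adj s t ∧ u.1 ∈ β t ∧ v.1 ∈ β t)
  symm := ⟨by
    rintro u v ⟨hne, h | ⟨t, ht, hu, hv⟩⟩
    · exact ⟨hne.symm, Or.inl h.symm⟩
    · exact ⟨hne.symm, Or.inr ⟨t, ht, hv, hu⟩⟩⟩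
  loopless := ⟨fun _ h => h.1 rfl⟩

theorem inacc_iff {V : Type} {G : SimpleGraph V} : Run7.h926.Inacc G ↔ ¬ Accessible G := by
  unfold Run7.h926.Inacc Accessible
  push Not
  rfl

/-- Let `G` be a connected locally finite quasi-transitive graph that is not accessible and is
quasi-isometric to a connected graph `G'` with a tree-decomposition of adhesion at most `N`. Then,
for every `k`, there is a connected locally finite quasi-transitive graph `G₀` that is not
accessible, has at least two ends and no two of whose ends are separated by at most `k` vertices,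
and a node `s` such that `G₀` is quasi-isometric to a connected graph of bounded degree that is a
subgraph of the torso at `s`; if moreover this torso does not contain `n` pairwise disjoint minors
from a family of finite graphs, then `G₀` is quasi-isometric to a connected graph of bounded
degree with no minor in that family. -/
theorem result :
    ∀ (V : Type) (G : SimpleGraph V), G.Connected → (∀ v, (G.neighborSet v).Finite) →
      (∃ S : Finset V, ∀ v : V, ∃ s ∈ S, ∃ φ : G ≃g G, φ s = v) → ¬ Accessible G →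
      ∀ (V' : Type) (G' : SimpleGraph V'), G'.Connected →
      ∀ (q : V → V') (C : ℕ), QuasiIsom G G' q C →
      ∀ (τ : Type) (T : SimpleGraph τ) (β : τ → Set V'), TreeDecomp G' T β →
      ∀ N : ℕ, (∀ s t, T.Adj s t → (β s ∩ β t).Finite ∧ (β s ∩ β t).ncard ≤ N) →
      ∀ k : ℕ, ∃ (s : τ) (V₀ : Type) (G₀ : SimpleGraph V₀), G₀.Connected ∧
        (∀ v, (G₀.neighborSet v).Finite) ∧
        (∃ S : Finset V₀, ∀ v : V₀, ∃ s ∈ S, ∃ φ : G₀ ≃g G₀, φ s = v) ∧
        ¬ Accessible G₀ ∧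
        (∀ η₁ η₂ : G₀.end, ∀ K : Finset V₀, K.card ≤ k → η₁.val (op K) = η₂.val (op K)) ∧
        (∃ (Z : Type) (GZ : SimpleGraph Z), GZ.Connected ∧
          (∃ D : ℕ, ∀ v, (GZ.neighborSet v).Finite ∧ (GZ.neighborSet v).ncard ≤ D) ∧
          (∃ (q₀ : V₀ → Z) (C₀ : ℕ), QuasiIsom G₀ GZ q₀ C₀) ∧
          ∃ j : Z → β s, Function.Injective j ∧
            ∀ x y, GZ.Adj x y → (Torso G' T β s).Adj (j x) (j y)) ∧
        ∀ (ι : Type) (W : ι → Type) (H : ∀ i, SimpleGraph (W i)), (∀ i, Finite (W i)) →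
          ∀ n : ℕ, (¬ ∃ Y : Fin n → Set (β s), Pairwise (fun a b => Disjoint (Y a) (Y b)) ∧
            ∀ a, ∃ i, MinorIn (Torso G' T β s) (Y a) (H i)) →
          ∃ (V₁ : Type) (G₁ : SimpleGraph V₁), G₁.Connected ∧
            (∃ D : ℕ, ∀ v, (G₁.neighborSet v).Finite ∧ (G₁.neighborSet v).ncard ≤ D) ∧
            (∃ (q₁ : V₀ → V₁) (C₁ : ℕ), QuasiIsom G₀ G₁ q₁ C₁) ∧
            ∀ i, ¬ MinorIn G₁ Set.univ (H i) := by
  intro V G hG hf hS hacc V' G' hG' q C hq τ T β hd N hN k
  have hd' : Run7.h926.IsTreeDec G' T β := ⟨hd.1, hd.2.1, hd.2.2.1, hd.2.2.2⟩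
  obtain ⟨s, V₀, G₀, h1, h2, h3, h4, h5, Z, GZ, h6, h7, ⟨q₀, C₀, h8⟩, j, h9, h10⟩ :=
    Run7.h926.torso_reduction hG hf hS (inacc_iff.2 hacc) hG' hq.1 hd' hN k
  refine ⟨s, V₀, G₀, h1, h2, h3, inacc_iff.1 h4, h5, ⟨Z, GZ, h6, h7, ⟨q₀, C₀, h8⟩, j, h9, h10⟩, ?_⟩
  intro ι W H hW n hno
  exact Run7.h926.remove_sparse h1 h2 h3 h4 h6 h8 h9 h10 hW H n hno

end Pool.Agent.Results.MP_851278_al.TorsoReduction
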